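import Pool.Agent.TH25.AD.A8

/-!
One generic unknown in place of several: the column lemma.
-/

set_option autoImplicit false
set_option linter.unusedSectionVars false

open scoped InnerProductSpace ENNReal ComplexConjugate
open Filter Topology

namespace Pool.Agent.Q5.AZ

open Pool.Agent.TH25.AD
open Pool.Agent.W656.VA
open Pool.Agent.H80R2
open Pool.Agent.H80R2.BC (L2 GMat vdim IsTr LInv Equi act kerA Coef Generic)
open Pool.Agent.H812R3

variable {ι κ G G' : Type} [Group G] [Group G'] [Fintype ι] [Fintype κ] [DecidableEq ι]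

/-- the column of the elements `v p` -/
noncomputable def pm (v : ι → G') : GMat ι Unit G' := fun p _ => Finsupp.single (v p) 1

theorem op_pm (v : ι → G') (y : L2 (Unit × G')) (p : ι) (g : G') :
    op (pm v) y (p, g) = y ((), g * v p) := by
  rw [op_apply]
  unfold act pm
  simp

/-- the system `A` with the `p`-th unknown replaced by the translate of one unknown by `v p` -/
noncomputable def col (inc : G →* G') (v : ι → G') (A : GMat κ ι G) : GMat κ Unit G' :=
  mulM (BC.push inc A) (pm v)

theorem coef_col {R : Subring ℂ} (inc : G →* G') (v : ι → G') {A : GMat κ ι G} (hA : Coef R A) :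
    Coef R (col inc v A) :=
  coef_mulM (coef_push _ _ hA) fun _ _ _ => coef_single _ _ R.one_mem _

theorem mem_col (inc : G →* G') (v : ι → G') (A : GMat κ ι G) (y : L2 (Unit × G')) :
    y ∈ kerA (col inc v A) ↔ op (pm v) y ∈ kerA (BC.push inc A) := by
  rw [kerA_eq, kerA_eq, mem_kr, mem_kr, col, op_mulM]

/-- the conditions that the unknowns are translates of one unknown -/
noncomputable def tm (v : ι → G') (p0 : ι) : GMat {p : ι // p ≠ p0} ι G' := fun q p =>
  (if p = q then Finsupp.single (v q)⁻¹ 1 else 0) - (if p = p0 then Finsupp.single (v p0)⁻¹ 1 else 0)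

theorem op_tm (v : ι → G') (p0 : ι) (z : L2 (ι × G')) (q : {p : ι // p ≠ p0}) (e : G') :
    op (tm v p0) z (q, e) = z (q, e * (v q)⁻¹) - z (p0, e * (v p0)⁻¹) := by
  rw [op_apply]
  unfold act tm
  have h : ∀ p : ι, ((if p = q then Finsupp.single (v q)⁻¹ (1 : ℂ) else 0) -
      (if p = p0 then Finsupp.single (v p0)⁻¹ 1 else 0)).sum (fun h c => c * z (p, e * h))
      = (if p = q then z (q, e * (v q)⁻¹) else 0) - (if p = p0 then z (p0, e * (v p0)⁻¹) else 0) := by
    intro p
    rw [Finsupp.sum_sub_index (by intros; ring)]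
    congr 1
    · split_ifs with h1
      · rw [Finsupp.sum_single_index (by simp), one_mul, h1]
      · simp
    · split_ifs with h1
      · rw [Finsupp.sum_single_index (by simp), one_mul, h1]
      · simp
  rw [Finset.sum_congr rfl fun p _ => h p, Finset.sum_sub_distrib]
  simp

theorem card_ne (p0 : ι) : (Fintype.card {p : ι // p ≠ p0} : ℝ) = Fintype.card ι - 1 := by
  have h : 0 < Fintype.card ι := Fintype.card_pos_iff.2 ⟨p0⟩
  rw [Fintype.card_subtype_compl, Fintype.card_subtype_eq]
  rw [Nat.cast_sub h]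
  simp

/-- **The column lemma, lower bound.** -/
theorem col_eq (inc : G →* G') (hinc : Function.Injective inc) (v : ι → G') (A : GMat κ ι G)
    (p0 : ι) : vdim (kerA A) = vdim (kerA (col inc v A)) +
      vdim ((kerA (BC.push inc A)).map (op (tm v p0) : L2 (ι × G') →ₗ[ℂ]
        L2 ({p : ι // p ≠ p0} × G'))).topologicalClosure := by
  have h := vdim_rank (isClosed_kerA (BC.push inc A)) (linv_kerA _) (op (tm v p0)) (equi_op _)
  rw [vdim_push inc hinc] at h
  rw [h]
  congr 1
  have hcl := isClosed_inf (isClosed_kerA (BC.push inc A)) (isClosed_kr (op (tm v p0)))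
  have hli := linv_inf (linv_kerA (BC.push inc A)) (linv_kr (equi_op (tm v p0)))
  -- the elements of the intersection are translates of one vector
  have hz : ∀ z : L2 (ι × G'), op (tm v p0) z = 0 → ∀ p e, z (p, e) = z (p0, e * v p * (v p0)⁻¹) := by
    intro z hz p e
    by_cases hp : p = p0
    · subst hp
      rw [mul_assoc, mul_inv_cancel, mul_one]
    · have h1 := op_tm v p0 z ⟨p, hp⟩ (e * v p)
      rw [hz, mul_inv_cancel_right] at h1
      have h2 : (0 : ℂ) = z (p, e) - z (p0, e * v p * (v p0)⁻¹) := h1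
      exact (sub_eq_zero.1 h2.symm)
  apply le_antisymm
  · refine vdim_inj_le hcl hli (el () p0 (v p0)⁻¹) ?_ (isClosed_kerA _) ?_ ?_
    · have : (el () p0 (v p0)⁻¹ : L2 (ι × G') →L[ℂ] L2 (Unit × G')) =
          op (fun _ p => if p = p0 then Finsupp.single (v p0)⁻¹ 1 else 0 : GMat Unit ι G') := by
        ext x ⟨⟨⟩, g⟩
        rw [el_self, op_apply]
        unfold act
        rw [Finset.sum_eq_single p0]
        · simp
        · intro b _ hb
          simp [hb]
        · intro h
          exact absurd (Finset.mem_univ _) h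
      rw [this]
      exact equi_op _
    · rintro z ⟨h1, h2⟩
      rw [mem_col]
      have h3 : op (pm v) (el () p0 (v p0)⁻¹ z) = z := by
        ext ⟨p, g⟩
        rw [op_pm, el_self, hz z ((mem_kr _ _).1 h2) p g]
      rw [h3]
      exact h1
    · rintro z ⟨h1, h2⟩ h0
      ext ⟨p, g⟩
      rw [hz z ((mem_kr _ _).1 h2) p g]
      have h3 := el_self () p0 (v p0)⁻¹ z (g * v p)
      rw [h0] at h3
      exact h3.symm
  · refine vdim_inj_le (isClosed_kerA _) (linv_kerA _) (op (pm v)) (equi_op _) hcl ?_ ?_
    · intro y hy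
      refine ⟨(mem_col _ _ _ _).1 hy, (mem_kr _ _).2 ?_⟩
      ext ⟨q, e⟩
      rw [op_tm, op_pm, op_pm, inv_mul_cancel_right, inv_mul_cancel_right, sub_self]
      rfl
    · intro y _ h0
      ext ⟨⟨⟩, g⟩
      have h3 := op_pm v y p0 (g * (v p0)⁻¹)
      rw [h0, inv_mul_cancel_right] at h3
      exact h3.symm

theorem rs_mem' (inc : G →* G') (hinc : Function.Injective inc) (A : GMat κ ι G)
    (χ : G' → Bool) (hχ : ∀ r g, χ (r * inc g) = χ r)
    (x : L2 (ι × G')) (hx : x ∈ kerA (BC.push inc A)) :
    rs (fun y => χ y.2) x ∈ kerA (BC.push inc A) := by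
  rw [mem_push_iff inc hinc] at hx ⊢
  intro g
  by_cases h : χ g = true
  · have : slice ι inc hinc g (rs (fun y => χ y.2) x) = slice ι inc hinc g x := by
      ext ⟨p, a⟩
      rw [slice_apply, slice_apply, rs_apply]
      simp only
      rw [hχ, if_pos h]
    rw [this]
    exact hx g
  · have : slice ι inc hinc g (rs (fun y => χ y.2) x) = 0 := by
      ext ⟨p, a⟩
      rw [slice_apply, rs_apply]
      simp only
      rw [hχ, if_neg h]
      rfl
    rw [this]
    exact Submodule.zero_mem _

/-- the image of the conditions is dense as soon as the column has a kernel -/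
theorem col_dense (inc : G →* G') (hinc : Function.Injective inc) (v : ι → G')
    (hv : Generic inc (fun p (_ : Unit) => v p)) (A : GMat κ ι G) (p0 : ι)
    (hne : kerA (col inc v A) ≠ ⊥) :
    ((kerA (BC.push inc A)).map (op (tm v p0) : L2 (ι × G') →ₗ[ℂ]
        L2 ({p : ι // p ≠ p0} × G'))).topologicalClosure = ⊤ := by
  set M := (kerA (BC.push inc A)).map (op (tm v p0) : L2 (ι × G') →ₗ[ℂ]
        L2 ({p : ι // p ≠ p0} × G')) with hM
  have hMi : LInv M := linv_map (equi_op _) (linv_kerA _)
  obtain ⟨y, hy, hy0⟩ := (Submodule.ne_bot_iff _).1 hne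
  have hy1 : ∃ e0 : G', y ((), e0) ≠ 0 := by
    by_contra hcon
    push Not at hcon
    apply hy0
    ext ⟨⟨⟩, g⟩
    exact hcon g
  obtain ⟨e0, he0⟩ := hy1
  set z := op (pm v) y with hz
  have hzK : z ∈ kerA (BC.push inc A) := (mem_col _ _ _ _).1 hy
  have hzv : ∀ p e, z (p, e * (v p)⁻¹) = y ((), e) := by
    intro p e
    rw [hz, op_pm, inv_mul_cancel_right]
  apply top_of_de
  rintro ⟨q1, e1⟩
  obtain ⟨χ, hχ1, hχ2⟩ := hv q1 () e0
  have h1 : op (tm v p0) (rs (fun y => χ y.2) z) =
      ((if χ e0 = true then (-1 : ℂ) else 1) * y ((), e0)) • de (q1, e0) := by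
    ext ⟨q, e⟩
    rw [op_tm, rs_apply, rs_apply, lp.coeFn_smul, Pi.smul_apply, smul_eq_mul, hzv, hzv]
    simp only
    have hq0 : (q : ι) ≠ p0 := q.2
    have hp0 : χ (e * (v p0)⁻¹) = χ e := by
      by_contra hc
      have := (hχ2 p0 () e).1 hc
      exact q1.2 this.1.symm
    by_cases he : e = e0
    · subst he
      by_cases hq : q = q1
      · subst hq
        have h2 : χ (e * (v q)⁻¹) ≠ χ e := (hχ2 q () e).2 ⟨rfl, rfl, rfl⟩
        rw [hp0, de_apply_self]
        by_cases h3 : χ e = true
        · have h4 : χ (e * (v q)⁻¹) = false := by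
            rw [h3] at h2
            simpa using h2
          simp [h3, h4]
        · have h3' : χ e = false := by simpa using h3
          have h4 : χ (e * (v q)⁻¹) = true := by
            rw [h3'] at h2
            simpa using h2
          simp [h3', h4]
      · have h2 : χ (e * (v q)⁻¹) = χ e := by
          by_contra hc
          have := (hχ2 q () e).1 hc
          exact hq (Subtype.ext this.1)
        rw [h2, hp0, sub_self, de_apply_ne (by
          intro h
          exact hq (congrArg Prod.fst h)), mul_zero]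
    · have h2 : χ (e * (v q)⁻¹) = χ e := by
        by_contra hc
        have := (hχ2 q () e).1 hc
        exact he this.2.2
      rw [h2, hp0, sub_self, de_apply_ne (by
          intro h
          exact he (congrArg Prod.snd h)), mul_zero]
  have h2 : op (tm v p0) (rs (fun y => χ y.2) z) ∈ M := ⟨_, rs_mem' inc hinc A χ hχ1 z hzK, rfl⟩
  rw [h1] at h2
  have hc : ((if χ e0 = true then (-1 : ℂ) else 1) * y ((), e0)) ≠ 0 := by
    apply mul_ne_zero _ he0
    split_ifs <;> norm_num
  have h3 := M.smul_mem ((if χ e0 = true then (-1 : ℂ) else 1) * y ((), e0))⁻¹ h2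
  rw [smul_smul, inv_mul_cancel₀ hc, one_smul] at h3
  have h4 := linv_lt hMi (e0 * e1⁻¹) h3
  rw [lt_de] at h4
  have h5 : (e0 * e1⁻¹)⁻¹ * e0 = e1 := by group
  rwa [h5] at h4

/-- **The column lemma.** -/
theorem vdim_col (inc : G →* G') (hinc : Function.Injective inc) (v : ι → G')
    (hv : Generic inc (fun p (_ : Unit) => v p)) (A : GMat κ ι G) (p0 : ι)
    (h : (Fintype.card ι : ℝ) - 1 < vdim (kerA A)) :
    vdim (kerA (col inc v A)) = vdim (kerA A) - (Fintype.card ι - 1) := by
  have h1 := col_eq inc hinc v A p0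
  have hle : vdim ((kerA (BC.push inc A)).map (op (tm v p0) : L2 (ι × G') →ₗ[ℂ]
        L2 ({p : ι // p ≠ p0} × G'))).topologicalClosure ≤ Fintype.card ι - 1 := by
    rw [← card_ne p0]
    exact vdim_le_card _
  have hne : kerA (col inc v A) ≠ ⊥ := by
    intro h0
    rw [h0, vdim_bot] at h1
    linarith
  rw [col_dense inc hinc v hv A p0 hne, vdim_top, card_ne] at h1
  linarith

end Pool.Agent.Q5.AZ
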