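import Pool.Agent.Q5.AZ.R1

/-!
Ranks of matrices over group rings; tensor products with single elements; single elements.
-/

set_option autoImplicit false
set_option linter.unusedSectionVars false

open scoped InnerProductSpace ENNReal ComplexConjugate
open Filter Topology

namespace Pool.Agent.Q5.AZ

open Pool.Agent.TH25.AD
open Pool.Agent.W656.VA
open Pool.Agent.H80R2
open Pool.Agent.H80R2.BC (L2 GMat vdim IsTr LInv Equi act kerA Coef Generic)
open Pool.Agent.H812R3

variable {ι κ ι' κ' G G' H : Type} [Group G] [Group G'] [Group H] [Fintype ι] [Fintype κ]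
  [Fintype ι'] [Fintype κ'] {R : Subring ℂ}

/-- `ρ` is the rank of a matrix over `R[G]` -/
def RVal (R : Subring ℂ) (G : Type) [Group G] (ρ : ℝ) : Prop :=
  ∃ (m n : ℕ) (A : GMat (Fin n) (Fin m) G), Coef R A ∧ m - vdim (kerA A) = ρ

/-- an element of the group ring as a matrix -/
def em (a : G →₀ ℂ) : GMat Unit Unit G := fun _ _ => a

/-- `v` is the dimension of the kernel of an element of `R[G]` -/
def EVal (R : Subring ℂ) (G : Type) [Group G] (v : ℝ) : Prop :=
  ∃ a : G →₀ ℂ, (∀ g, a g ∈ R) ∧ vdim (kerA (em a)) = v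

theorem rval_of (A : GMat κ ι G) (hA : Coef R A) :
    RVal R G (Fintype.card ι - vdim (kerA A)) := by
  refine ⟨Fintype.card ι, Fintype.card κ,
    ri (Fintype.equivFin κ).symm (Fintype.equivFin ι).symm A, ?_, ?_⟩
  · intro k i h
    exact hA _ _ _
  · rw [vdim_ri]

theorem rval_zero : RVal R G 0 := by
  refine ⟨0, 0, fun _ _ => 0, fun k => k.elim0, ?_⟩
  unfold vdim
  simp

theorem rval_add {v w : ℝ} (hv : RVal R G v) (hw : RVal R G w) : RVal R G (v + w) := by
  obtain ⟨m, n, A, hA, rfl⟩ := hv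
  obtain ⟨m', n', A', hA', rfl⟩ := hw
  have h := rval_of _ (coef_bd hA hA')
  rw [vdim_bd] at h
  simp only [Fintype.card_sum, Fintype.card_fin] at h
  have e : (m : ℝ) - vdim (kerA A) + (m' - vdim (kerA A')) =
      ((m + m' : ℕ) : ℝ) - (vdim (kerA A) + vdim (kerA A')) := by
    push_cast
    ring
  rwa [e]

theorem rval_nsmul {v : ℝ} (hv : RVal R G v) (n : ℕ) : RVal R G (n * v) := by
  induction n with
  | zero => simpa using rval_zero
  | succ n ih =>
    have := rval_add ih hv
    have e : ((n : ℝ) * v + v) = ((n + 1 : ℕ) : ℝ) * v := by push_cast; ring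
    rwa [e] at this

theorem eval_rval {v : ℝ} (hv : EVal R G v) : RVal R G (1 - v) := by
  obtain ⟨a, ha, rfl⟩ := hv
  have h := rval_of (em a) (R := R) (fun _ _ h => ha h)
  simpa using h

/-! ### from small ranks to single elements -/

/-- a column can be replaced by one element -/
theorem eval_col (hR : ∀ c ∈ R, conj c ∈ R) (A : GMat κ Unit G) (hA : Coef R A) :
    EVal R G (vdim (kerA A)) := by
  refine ⟨mulM (st A) A () (), coef_mulM (coef_st hR hA) hA () (), ?_⟩
  congr 1
  ext x
  have e : em (mulM (st A) A () ()) = mulM (st A) A := by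
    funext i j
    rfl
  rw [e, kerA_eq, kerA_eq, mem_kr, mem_kr, op_mulM, op_st]
  exact ker_adj_comp (op A) x

/-- **Small ranks are ranks of single elements.** -/
theorem compress (hR : ∀ c ∈ R, conj c ∈ R) {ρ : ℝ} (h : RVal R G ρ) (h0 : 0 < ρ) (h1 : ρ < 1) :
    ∃ m : ℕ, EVal R (Monoid.Coprod G (FreeGroup (Fin m))) (1 - ρ) := by
  obtain ⟨m, n, A, hA, hρ⟩ := h
  have hm : 0 < m := by
    rcases Nat.eq_zero_or_pos m with rfl | hm
    · exfalso
      have : vdim (kerA A) = 0 := by
        unfold vdim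
        simp
      rw [this] at hρ
      simp at hρ
      linarith
    · exact hm
  set e : Fin m × Unit ≃ Fin m := Equiv.prodPUnit (Fin m) with he
  have hgen := BC.generic_coprod G m e
  set inc : G →* Monoid.Coprod G (FreeGroup (Fin m)) := Monoid.Coprod.inl with hinc
  have hinj : Function.Injective inc := Monoid.Coprod.inl_injective
  set v : Fin m → Monoid.Coprod G (FreeGroup (Fin m)) := fun p =>
    (Monoid.Coprod.inr : FreeGroup (Fin m) →* Monoid.Coprod G (FreeGroup (Fin m)))
        (FreeGroup.of (e (p, ()))) with hv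
  have h2 := vdim_col inc hinj v hgen A ⟨0, hm⟩ (by rw [Fintype.card_fin]; linarith)
  have h3 := eval_col hR (col inc v A) (coef_col inc v hA)
  rw [h2, Fintype.card_fin] at h3
  refine ⟨m, ?_⟩
  have e1 : vdim (kerA A) - ((m : ℝ) - 1) = 1 - ρ := by linarith
  rwa [e1] at h3

/-! ### tensor products -/

/-- dimensions of preimages of reducing subspaces -/
theorem vdim_comap {M : Submodule ℂ (L2 (ι × G))} (hM : IsClosed (M : Set (L2 (ι × G))))
    (hMi : LInv M) (T : L2 (ι × G) →L[ℂ] L2 (ι × G)) (hT : Equi T) (h1 : ∀ x ∈ M, T x ∈ M)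
    (h2 : ∀ x ∈ Mᗮ, T x ∈ Mᗮ) :
    vdim (M.comap (T : L2 (ι × G) →ₗ[ℂ] L2 (ι × G))) = vdim (kr T) + vdim M - vdim (M ⊓ kr T) := by
  set K := M.comap (T : L2 (ι × G) →ₗ[ℂ] L2 (ι × G)) with hK
  have hKc : IsClosed (K : Set (L2 (ι × G))) := hM.preimage T.continuous
  have hKi : LInv K := by
    apply linv_of
    intro g x hx
    have hx' : T x ∈ M := hx
    show T (lt ι g x) ∈ M
    rw [equi_lt hT]
    exact linv_lt hMi g hx'
  have hle : kr T ≤ K := by
    intro x hx
    have h : T x = 0 := (mem_kr _ _).1 hx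
    show T x ∈ M
    rw [h]
    exact M.zero_mem
  have e1 := vdim_rank hKc hKi T hT
  have e2 := vdim_rank hM hMi T hT
  rw [inf_eq_right.2 hle] at e1
  have e3 : K.map (T : L2 (ι × G) →ₗ[ℂ] L2 (ι × G)) = M.map (T : L2 (ι × G) →ₗ[ℂ] L2 (ι × G)) := by
    apply le_antisymm
    · rintro _ ⟨x, hx, rfl⟩
      have hx' : T x ∈ M := hx
      have iM := hasProj hM
      obtain ⟨y, hy, z, hz, hyz⟩ := M.exists_add_mem_mem_orthogonal x
      refine ⟨y, hy, ?_⟩
      have h3 : T z = T x - T y := by rw [hyz, map_add]; abel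
      have h4 : T z ∈ M := by
        rw [h3]
        exact M.sub_mem hx' (h1 y hy)
      have h5 : T z = 0 := by
        have := M.inf_orthogonal_eq_bot
        have h6 : T z ∈ M ⊓ Mᗮ := ⟨h4, h2 z hz⟩
        rwa [this, Submodule.mem_bot] at h6
      show T y = T x
      rw [h5] at h3
      exact (sub_eq_zero.1 h3.symm).symm
    · rintro _ ⟨x, hx, rfl⟩
      exact ⟨x, h1 x hx, rfl⟩
  rw [e3] at e1
  linarith

section dg

variable [DecidableEq ι]

/-- the diagonal matrix -/
noncomputable def dg (ι : Type) [DecidableEq ι] (b : H →₀ ℂ) : GMat ι ι H :=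
  fun i j => if j = i then b else 0

theorem op_dg (b : H →₀ ℂ) (x : L2 (ι × H)) (i : ι) (g : H) :
    op (dg ι b) x (i, g) = b.sum fun h c => c * x (i, g * h) := by
  rw [op_apply]
  unfold act dg
  rw [Finset.sum_eq_single i]
  · simp
  · intro j _ hj
    simp [hj]
  · intro h
    exact absurd (Finset.mem_univ _) h

theorem coef_dg {b : H →₀ ℂ} (hb : ∀ h, b h ∈ R) : Coef R (dg ι b) := by
  intro i j h
  unfold dg
  split_ifs
  · exact hb h
  · exact R.zero_mem

theorem st_dg_single (h : H) : st (dg ι (Finsupp.single h 1)) = dg ι (Finsupp.single h⁻¹ 1) := by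
  funext i j
  unfold st dg
  by_cases hij : i = j
  · subst hij
    simp
  · have hji : ¬ j = i := fun h => hij h.symm
    simp [hij, hji]

theorem op_dg_sum (b : H →₀ ℂ) (x : L2 (ι × H)) :
    op (dg ι b) x = b.sum fun h c => c • op (dg ι (Finsupp.single h 1)) x := by
  ext ⟨i, g⟩
  rw [op_dg, Finsupp.sum, Finsupp.sum, lp.coeFn_sum, Finset.sum_apply]
  refine Finset.sum_congr rfl fun h _ => ?_
  rw [lp.coeFn_smul, Pi.smul_apply, op_dg, Finsupp.sum_single_index (by simp), one_mul,
    smul_eq_mul]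

/-- translations by elements commuting with the subgroup preserve induced kernels -/
theorem dg_mem (inc : G →* H) (hinc : Function.Injective inc) (A : GMat κ ι G) (l : H)
    (hl : ∀ g, l * inc g = inc g * l) {x : L2 (ι × H)} (hx : x ∈ kerA (BC.push inc A)) :
    op (dg ι (Finsupp.single l 1)) x ∈ kerA (BC.push inc A) := by
  rw [mem_push_iff inc hinc] at hx ⊢
  intro g
  have : slice ι inc hinc g (op (dg ι (Finsupp.single l 1)) x) = slice ι inc hinc (g * l) x := by
    ext ⟨p, a⟩
    rw [slice_apply, slice_apply, op_dg, Finsupp.sum_single_index (by simp), one_mul, mul_assoc,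
      ← hl, mul_assoc]
  rw [this]
  exact hx _

theorem dg_mem_orth (inc : G →* H) (hinc : Function.Injective inc) (A : GMat κ ι G) (l : H)
    (hl : ∀ g, l * inc g = inc g * l) {x : L2 (ι × H)} (hx : x ∈ (kerA (BC.push inc A))ᗮ) :
    op (dg ι (Finsupp.single l 1)) x ∈ (kerA (BC.push inc A))ᗮ := by
  rw [Submodule.mem_orthogonal] at hx ⊢
  intro y hy
  have h1 : op (dg ι (Finsupp.single l 1)) =
      ContinuousLinearMap.adjoint (op (dg ι (Finsupp.single l⁻¹ (1 : ℂ)))) := by
    rw [← op_st, st_dg_single, inv_inv]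
  rw [h1, ContinuousLinearMap.adjoint_inner_right]
  apply hx
  apply dg_mem inc hinc A _ _ hy
  intro g
  have := hl g
  calc l⁻¹ * inc g = l⁻¹ * (inc g * l) * l⁻¹ := by group
    _ = l⁻¹ * (l * inc g) * l⁻¹ := by rw [this]
    _ = inc g * l⁻¹ := by group

/-- the system given by `A` and the element `a` on the two factors -/
theorem vdim_inter (A : GMat κ ι G) (a : G' →₀ ℂ) :
    vdim (kerA (BC.push (MonoidHom.inl G G') A) ⊓
      kerA (dg ι (a.mapDomain (MonoidHom.inr G G')))) = vdim (kerA A) * vdim (kerA (em a)) := by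
  rw [← vdim_ext, ← kerA_stack]
  have h : ri ((Equiv.prodPUnit κ).sumCongr (Equiv.prodPUnit ι)) (Equiv.prodPUnit ι)
      (BC.stack (BC.push (MonoidHom.inl G G') A) (dg ι (a.mapDomain (MonoidHom.inr G G'))))
      = BC.ext A (em a) := by
    funext k i
    rcases k with ⟨k, ⟨⟩⟩ | ⟨k, ⟨⟩⟩ <;> rcases i with ⟨i, ⟨⟩⟩
    · simp [ri, BC.stack, BC.push, BC.ext]
      rfl
    · simp only [ri, BC.stack, BC.ext, em]
      simp only [Equiv.sumCongr_apply, Sum.map_inr, Sum.elim_inr, Equiv.prodPUnit_apply]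
      by_cases h : k = i
      · subst h
        simp [dg]
        rfl
      · have h' : ¬ i = k := fun h' => h h'.symm
        simp [dg, h, h']
  rw [← h, vdim_ri]

/-- **Ranks of tensor products with single elements.** -/
theorem rval_tensor {ρ v : ℝ} (h : RVal R G ρ) (h' : EVal R G' v) :
    RVal R (G × G') (ρ * (1 - v)) := by
  obtain ⟨m, n, A, hA, rfl⟩ := h
  obtain ⟨a, ha, rfl⟩ := h'
  set inc : G →* G × G' := MonoidHom.inl G G' with hinc
  have hinj : Function.Injective inc := fun x y hxy => congrArg Prod.fst hxy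
  set X : GMat (Fin m) (Fin m) (G × G') := dg (Fin m) (a.mapDomain (MonoidHom.inr G G')) with hX
  have hXc : Coef R X := coef_dg (coef_mapDomain _ _ ha)
  have h1 := rval_of (mulM (BC.push inc A) X) (coef_mulM (coef_push _ _ hA) hXc)
  set M := kerA (BC.push inc A) with hM
  have hcomm : ∀ l ∈ (a.mapDomain (MonoidHom.inr G G')).support, ∀ g, l * inc g = inc g * l := by
    classical
    intro l hl g
    have := Finsupp.mapDomain_support hl
    rw [Finset.mem_image] at this
    obtain ⟨y, _, rfl⟩ := this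
    simp [hinc]
  have h2 : ∀ x ∈ M, op X x ∈ M := by
    intro x hx
    rw [hX, op_dg_sum]
    exact M.sum_mem fun l hl => M.smul_mem _ (dg_mem inc hinj A l (hcomm l hl) hx)
  have h3 : ∀ x ∈ Mᗮ, op X x ∈ Mᗮ := by
    intro x hx
    rw [hX, op_dg_sum]
    exact Mᗮ.sum_mem fun l hl => Mᗮ.smul_mem _ (dg_mem_orth inc hinj A l (hcomm l hl) hx)
  have h4 := vdim_comap (isClosed_kerA _) (linv_kerA _) (op X) (equi_op X) h2 h3
  have e1 : kerA (mulM (BC.push inc A) X) =
      M.comap (op X : L2 (Fin m × (G × G')) →ₗ[ℂ] L2 (Fin m × (G × G'))) := by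
    ext x
    rw [kerA_eq, mem_kr, op_mulM, hM, kerA_eq]
    exact (mem_kr _ _).symm
  have e2 : vdim (M ⊓ kr (op X)) = vdim (kerA A) * vdim (kerA (em a)) := by
    rw [← kerA_eq]
    exact vdim_inter A a
  have e3 : vdim (kr (op X)) = m * vdim (kerA (em a)) := by
    have h5 := vdim_inter (fun k _ => k.elim : GMat Empty (Fin m) G) a
    have h6 : kerA (BC.push (MonoidHom.inl G G') (fun k _ => k.elim : GMat Empty (Fin m) G)) = ⊤ := by
      rw [eq_top_iff]
      intro x _
      rw [mem_kerA]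
      intro k
      exact k.elim
    have h7 : kerA (fun k _ => k.elim : GMat Empty (Fin m) G) = ⊤ := by
      rw [eq_top_iff]
      intro x _
      rw [mem_kerA]
      intro k
      exact k.elim
    rw [h6, h7, top_inf_eq, vdim_top, Fintype.card_fin] at h5
    rw [← kerA_eq]
    exact h5
  have e4 : vdim M = vdim (kerA A) := vdim_push inc hinj A
  rw [e1, h4, e2, e3, e4, Fintype.card_fin] at h1
  have e5 : ((m : ℝ) - vdim (kerA A)) * (1 - vdim (kerA (em a))) =
      m - (m * vdim (kerA (em a)) + vdim (kerA A) - vdim (kerA A) * vdim (kerA (em a))) := by ring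
  rwa [e5]

end dg

end Pool.Agent.Q5.AZ
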