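import Pool.Agent.Q5.AZ.R2

/-!
Ranks of the matrices of the lamp machine; all numbers in the unit interval are kernel dimensions of
single elements.
-/

set_option autoImplicit false
set_option linter.unusedSectionVars false

open scoped InnerProductSpace ENNReal ComplexConjugate
open Filter Topology

namespace Pool.Agent.Q5.AZ

open Pool.Agent.TH25.AD
open Pool.Agent.W656.VA
open Pool.Agent.H80R2
open Pool.Agent.H80R2.BC (L2 GMat vdim IsTr LInv Equi act kerA Coef Generic)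
open Pool.Agent.H812R3

variable {ι κ ι' κ' G G' H : Type} [Group G] [Group G'] [Group H] [Fintype ι] [Fintype κ]
  [Fintype ι'] [Fintype κ'] {R : Subring ℂ}

/-- `E` is defined over `R` by a matrix with an auxiliary part of rank `r` -/
def RDfn (R : Subring ℂ) (E : Submodule ℂ (L2 (ι × H))) (r : ℝ) : Prop :=
  ∃ (κ ν : Type) (_ : Fintype κ) (_ : Fintype ν) (B : GMat κ ι H) (C : GMat κ ν H),
    Coef R B ∧ Coef R C ∧ (Fintype.card ν : ℝ) - vdim (kerA C) = r ∧
      ∀ x, x ∈ E ↔ op B x ∈ clo (op C)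

theorem RDfn.val {E : Submodule ℂ (L2 (ι × H))} {r : ℝ} (h : RDfn R E r) :
    RVal R H (Fintype.card ι - vdim E + r) := by
  obtain ⟨κ, ν, _, _, B, C, hB, hC, rfl, hE⟩ := h
  have e : E = pre B C := by
    ext x
    rw [hE, mem_pre]
  have h1 := rval_of _ (coef_sd hB hC)
  rw [vdim_sd, ← e, Fintype.card_sum] at h1
  have e1 : (Fintype.card ι : ℝ) - vdim E + (Fintype.card ν - vdim (kerA C)) =
      ((Fintype.card ι + Fintype.card ν : ℕ) : ℝ) - (vdim E + vdim (kerA C)) := by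
    push_cast
    ring
  rwa [e1]

theorem RDfn.inf {E E' : Submodule ℂ (L2 (ι × H))} {d d' : ℝ} (h : RDfn R E d)
    (h' : RDfn R E' d') : RDfn R (E ⊓ E') (d + d') := by
  obtain ⟨κ, ν, _, _, B, C, hB, hC, rfl, hE⟩ := h
  obtain ⟨κ', ν', _, _, B', C', hB', hC', rfl, hE'⟩ := h'
  refine ⟨κ ⊕ κ', ν ⊕ ν', inferInstance, inferInstance, BC.stack B B', bd C C',
    coef_stack hB hB', coef_bd hC hC', ?_, ?_⟩
  · rw [vdim_bd, Fintype.card_sum]
    push_cast
    ring
  · intro x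
    rw [Submodule.mem_inf, hE, hE', mem_clo_bd, pl1_stack, pl2_stack]

theorem RDfn.comap {E : Submodule ℂ (L2 (ι' × H))} {d : ℝ} (h : RDfn R E d)
    {X : GMat ι' ι H} (hX : Coef R X) :
    RDfn R (E.comap (op X : L2 (ι × H) →ₗ[ℂ] L2 (ι' × H))) d := by
  obtain ⟨κ, ν, _, _, B, C, hB, hC, rfl, hE⟩ := h
  refine ⟨κ, ν, inferInstance, inferInstance, mulM B X, C, coef_mulM hB hX, hC, rfl, ?_⟩
  intro x
  rw [op_mulM]
  exact hE (op X x)

theorem rdfn_lampP {A : GMat κ ι H} {T : GMat Unit ι H} (hA : Coef R A)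
    (hT : Coef R T) (h : kerA A ⊓ kerA T = ⊥) : RDfn R (lampP A T) (Fintype.card ι) := by
  set B : GMat (Unit ⊕ κ) Unit H := BC.stack (idM H) (fun _ _ => 0) with hB
  set C : GMat (Unit ⊕ κ) ι H := BC.stack T A with hC
  have hkC : kerA C = ⊥ := by
    rw [hC, kerA_stack, inf_comm, h]
  have hkC0 : vdim (kerA C) = 0 := by rw [hkC, vdim_bot]
  have h1 : lampP A T ≤ pre B C := by
    apply Submodule.topologicalClosure_minimal _ _ (closed_pre B C)
    rintro _ ⟨s, hs, rfl⟩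
    rw [mem_pre]
    have e : op B (op T s) = op C s := by
      apply ext_pl
      · rw [hB, hC, pl1_stack, pl1_stack, op_idM]
      · rw [hB, hC, pl2_stack, pl2_stack, op_zero]
        have hs' : s ∈ kerA A := hs
        rw [kerA_eq, mem_kr] at hs'
        exact hs'.symm
    show op B (op T s) ∈ clo (op C)
    rw [e]
    exact mem_clo _ _
  have h2 : vdim (kerA (sd B C)) ≤ vdim (kerA A) := by
    have key : ∀ x ∈ kerA (sd B C), pl1 Unit ι H x = op T (pl2 Unit ι H x) ∧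
        op A (pl2 Unit ι H x) = 0 := by
      intro x hx
      rw [kerA_eq, mem_kr, op_sd, sub_eq_zero] at hx
      constructor
      · have := congrArg (pl1 Unit κ H) hx
        rwa [hB, hC, pl1_stack, pl1_stack, op_idM] at this
      · have := congrArg (pl2 Unit κ H) hx
        rw [hB, hC, pl2_stack, pl2_stack, op_zero] at this
        exact this.symm
    refine vdim_inj_le (isClosed_kerA _) (linv_kerA _) (pl2 Unit ι H) equi_pl2 (isClosed_kerA A)
      ?_ ?_
    · intro x hx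
      rw [kerA_eq, mem_kr]
      exact (key x hx).2
    · intro x hx h0
      apply ext_pl
      · rw [(key x hx).1, h0, map_zero, map_zero]
      · rw [h0, map_zero]
  rw [vdim_sd, hkC0, add_zero, ← vdim_lampP A T h] at h2
  have h3 := eq_of_vdim (closed_lampP A T) (linv_lampP A T) (closed_pre B C) (linv_pre B C) h1 h2
  refine ⟨Unit ⊕ κ, ι, inferInstance, inferInstance, B, C, ?_, coef_stack hT hA, ?_, ?_⟩
  · apply coef_stack
    · intro k i g
      exact coef_single _ _ R.one_mem _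
    · intro k i g
      exact R.zero_mem
  · rw [hkC0, sub_zero]
  · intro x
    rw [h3, mem_pre]

theorem rdfn_lampP_orth (hR : ∀ c ∈ R, conj c ∈ R) {A : GMat κ ι H}
    {T : GMat Unit ι H} (hA : Coef R A) (hT : Coef R T) :
    RDfn R (lampP A T)ᗮ (Fintype.card ι - vdim (kerA A)) := by
  refine ⟨ι, κ, inferInstance, inferInstance, st T, st A, coef_st hR hT, coef_st hR hA, ?_, ?_⟩
  · have h := vdim_ker_adjoint (op A) (equi_op A)
    rw [← op_st, ← kerA_eq, ← kerA_eq] at h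
    linarith
  · intro y
    rw [op_st, op_st]
    have h1 : clo (ContinuousLinearMap.adjoint (op A)) = (kerA A)ᗮ := by
      rw [kerA_eq]
      exact (ContinuousLinearMap.orthogonal_ker (op A)).symm
    rw [h1, lampP, Submodule.orthogonal_closure, Submodule.mem_orthogonal,
      Submodule.mem_orthogonal]
    constructor
    · intro h s hs
      rw [ContinuousLinearMap.adjoint_inner_right]
      exact h _ ⟨s, hs, rfl⟩
    · rintro h _ ⟨s, hs, rfl⟩
      have := h s hs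
      rw [ContinuousLinearMap.adjoint_inner_right] at this
      exact this

theorem rdfn_Sol (M : Mach H) {r1 r2 : ℝ} (hP : RDfn R M.P r1)
    (hN : RDfn R M.Pᗮ r2) : RDfn R M.Sol (4 * r2 + 4 * r1) := by
  have hZ : ∀ i : Fin 4, RDfn R ((M.Pᗮ).comap
      (op (rw2 i i 1 M.f) : L2 (Fin 4 × H) →ₗ[ℂ] L2 (Unit × H))) r2 :=
    fun i => hN.comap (coef_rw2 _ _ _ _)
  have h1 : RDfn R ((M.P).comap
      (op (rw2 2 0 1 M.g) : L2 (Fin 4 × H) →ₗ[ℂ] L2 (Unit × H))) r1 := hP.comap (coef_rw2 _ _ _ _)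
  have h2 : RDfn R ((M.P).comap
      (op (rw2 3 1 1 M.g) : L2 (Fin 4 × H) →ₗ[ℂ] L2 (Unit × H))) r1 := hP.comap (coef_rw2 _ _ _ _)
  have h3 : RDfn R ((M.P).comap
      (op (rw2 1 0 M.f (M.f * M.h)) : L2 (Fin 4 × H) →ₗ[ℂ] L2 (Unit × H))) r1 :=
    hP.comap (coef_rw2 _ _ _ _)
  have h4 : RDfn R ((M.P).comap
      (op (rw2 3 2 M.f (M.f * M.h)) : L2 (Fin 4 × H) →ₗ[ℂ] L2 (Unit × H))) r1 :=
    hP.comap (coef_rw2 _ _ _ _)
  have h5 := ((((hZ 0).inf (hZ 1)).inf (hZ 2)).inf (hZ 3)).inf ((h1.inf h2).inf (h3.inf h4))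
  have e1 : r2 + r2 + r2 + r2 + (r1 + r1 + (r1 + r1)) = 4 * r2 + 4 * r1 := by ring
  rw [e1] at h5
  have e2 : M.Sol = ((((M.Pᗮ).comap
      (op (rw2 0 0 1 M.f) : L2 (Fin 4 × H) →ₗ[ℂ] L2 (Unit × H)) ⊓ (M.Pᗮ).comap
      (op (rw2 1 1 1 M.f) : L2 (Fin 4 × H) →ₗ[ℂ] L2 (Unit × H))) ⊓ (M.Pᗮ).comap
      (op (rw2 2 2 1 M.f) : L2 (Fin 4 × H) →ₗ[ℂ] L2 (Unit × H))) ⊓ (M.Pᗮ).comap
      (op (rw2 3 3 1 M.f) : L2 (Fin 4 × H) →ₗ[ℂ] L2 (Unit × H))) ⊓ (((M.P).comap
      (op (rw2 2 0 1 M.g) : L2 (Fin 4 × H) →ₗ[ℂ] L2 (Unit × H)) ⊓ (M.P).comap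
      (op (rw2 3 1 1 M.g) : L2 (Fin 4 × H) →ₗ[ℂ] L2 (Unit × H))) ⊓ ((M.P).comap
      (op (rw2 1 0 M.f (M.f * M.h)) : L2 (Fin 4 × H) →ₗ[ℂ] L2 (Unit × H)) ⊓ (M.P).comap
      (op (rw2 3 2 M.f (M.f * M.h)) : L2 (Fin 4 × H) →ₗ[ℂ] L2 (Unit × H)))) := by
    ext x
    simp only [Submodule.mem_inf, Submodule.mem_comap, ContinuousLinearMap.coe_coe, op_rw2,
      U_one, U_mul, ← map_sub]
    rw [M.mem_Sol]
    have hz : ∀ i, (cj i x ∈ M.Z ↔ cj i x - U M.f (cj i x) ∈ M.Pᗮ) := fun i => Iff.rfl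
    constructor
    · rintro ⟨k1, ⟨k2, k3⟩, k4, k5⟩
      exact ⟨⟨⟨⟨k1 0, k1 1⟩, k1 2⟩, k1 3⟩, ⟨k2, k3⟩, k4, k5⟩
    · rintro ⟨⟨⟨⟨a0, a1⟩, a2⟩, a3⟩, ⟨k2, k3⟩, k4, k5⟩
      refine ⟨?_, ⟨k2, k3⟩, k4, k5⟩
      intro i
      fin_cases i
      · exact a0
      · exact a1
      · exact a2
      · exact a3
  rw [e2]
  exact h5

/-- **The ranks of the machine.** -/
theorem rvalue (hR : ∀ c ∈ R, conj c ∈ R) (hG : TF G) (A : GMat κ ι G) (T : GMat Unit ι G)
    (hA : Coef R A) (hT : Coef R T) (h : kerA A ⊓ kerA T = ⊥) (h1 : vdim (kerA A) < 1)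
    (S : Set ℕ) [DecidablePred (· ∈ S)] :
    ∃ w : ℝ, HasSum (fun n : ℕ => if n ∈ S then (1 - vdim (kerA A)) ^ 2 * vdim (kerA A) ^ n else 0)
        w ∧ RVal R (Hg G) (4 + 8 * Fintype.card ι - 4 * vdim (kerA A) - w) := by
  set A2 := BC.push (inc G) A with hA2
  set T2 := BC.push (inc G) T with hT2
  have hv : vdim (kerA A2) = vdim (kerA A) := vdim_push (inc G) inc_inj A
  have hbot : kerA A2 ⊓ kerA T2 = ⊥ := by
    rw [hA2, hT2, ← kerA_stack, ← push_stack]
    apply eq_bot_of_vdim (isClosed_kerA _) (linv_kerA _)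
    rw [vdim_push (inc G) inc_inj, kerA_stack, h, vdim_bot]
  have hsupp : ∀ (a : G →₀ ℂ), ∀ x ∈ (a.mapDomain (inc G)).support, x ∈ DIg G {0} := by
    classical
    intro a x hx
    have := Finsupp.mapDomain_support hx
    rw [Finset.mem_image] at this
    obtain ⟨y, _, rfl⟩ := this
    exact inc_mem y
  have hloc : Loc (DIg G {0}) (lampP A2 T2) :=
    loc_lampP _ (fun k i x hx => hsupp _ x hx) (fun k i x hx => hsupp _ x hx)
  set M := mach G S (lampP A2 T2) (closed_lampP A2 T2) hloc with hM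
  have hα : M.α = vdim (kerA A) := by
    rw [← hv]
    exact vdim_lampP A2 T2 hbot
  have hc1 := coef_push (inc G) A hA
  have hc2 := coef_push (inc G) T hT
  have d1 : RDfn R M.P (Fintype.card ι) := rdfn_lampP hc1 hc2 hbot
  have d2 : RDfn R M.Pᗮ (Fintype.card ι - vdim (kerA A2)) := rdfn_lampP_orth hR hc1 hc2
  have d3 := (rdfn_Sol M d1 d2).val
  have h3 := M.vdim_Sol (by rw [hα]; exact h1) S
    (fun n hn => mach_good S _ (closed_lampP A2 T2) hloc n hn) (by
      intro n hn k hk hc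
      refine mach_bad S _ (closed_lampP A2 T2) hloc n hn ?_
      have h4 := tf_Hg hG _ k hk hc
      have h5 := inv_mul_eq_one.1 h4
      exact h5.symm)
  rw [hα] at h3
  rw [hv, Fintype.card_fin] at d3
  refine ⟨vdim M.Sol, h3, ?_⟩
  have e : (4 : ℝ) + 8 * Fintype.card ι - 4 * vdim (kerA A) - vdim M.Sol =
      ((4 : ℕ) : ℝ) - vdim M.Sol + (4 * (Fintype.card ι - vdim (kerA A)) + 4 * Fintype.card ι) := by
    push_cast
    ring
  rwa [e]

/-! ### classes of groups -/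

variable {C : (G : Type) → [Group G] → Prop}

/-- `ρ` is the rank of a matrix over `R[H]` for some `H` in the class -/
def RR (C : (G : Type) → [Group G] → Prop) (R : Subring ℂ) (ρ : ℝ) : Prop :=
  ∃ (H : Type) (_ : Group H), C H ∧ RVal R H ρ

/-- `v` is the dimension of the kernel of an element of `R[H]` for some `H` in the class -/
def EE (C : (G : Type) → [Group G] → Prop) (R : Subring ℂ) (v : ℝ) : Prop :=
  ∃ (H : Type) (_ : Group H), C H ∧ EVal R H v

theorem EE.rr {v : ℝ} (h : EE C R v) : RR C R (1 - v) := by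
  obtain ⟨H, _, hH, h⟩ := h
  exact ⟨H, inferInstance, hH, eval_rval h⟩

theorem RR.nsmul {v : ℝ} (h : RR C R v) (n : ℕ) : RR C R (n * v) := by
  obtain ⟨H, _, hH, h⟩ := h
  exact ⟨H, inferInstance, hH, rval_nsmul h n⟩

theorem RR.tensor (hC : Cls C) {ρ v : ℝ} (h : RR C R ρ) (h' : EE C R v) :
    RR C R (ρ * (1 - v)) := by
  obtain ⟨H, _, hH, h⟩ := h
  obtain ⟨H', _, hH', h'⟩ := h'
  exact ⟨H × H', inferInstance, hC.prod H H' hH hH', rval_tensor h h'⟩

theorem RR.ee (hC : Cls C) (hR : ∀ c ∈ R, conj c ∈ R) {ρ : ℝ} (h : RR C R ρ) (h0 : 0 < ρ)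
    (h1 : ρ < 1) : EE C R (1 - ρ) := by
  obtain ⟨H, _, hH, h⟩ := h
  obtain ⟨m, h2⟩ := compress hR h h0 h1
  exact ⟨_, inferInstance, hC.free H m hH, h2⟩

theorem EE.pow (hC : Cls C) (hR : ∀ c ∈ R, conj c ∈ R) {v : ℝ} (h : EE C R v) (h0 : 0 < v)
    (h1 : v < 1) (n : ℕ) : EE C R (1 - (1 - v) ^ (n + 1)) := by
  induction n with
  | zero => simpa using h
  | succ n ih =>
    have h2 := (h.rr).tensor hC ih
    have e : (1 - v) * (1 - (1 - (1 - v) ^ (n + 1))) = (1 - v) ^ (n + 1 + 1) := by ring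
    rw [e] at h2
    exact h2.ee hC hR (pow_pos (by linarith) _) (pow_lt_one₀ (by linarith) (by linarith) (by omega))

/-- an interval of ranks -/
theorem RR.interval (hC : Cls C) (hR : ∀ c ∈ R, conj c ∈ R) {α : ℝ} (h : VV C R α)
    (h1 : 1 / 2 ≤ α) (h2 : α < 1) : ∃ s : ℝ, 1 < s ∧ ∀ r : ℝ, 0 ≤ r → r ≤ 1 - α →
      RR C R (s - r) := by
  classical
  obtain ⟨G, _, hG, hv⟩ := h
  obtain ⟨m, ι, κ, _, _, A, T, hA, hT, hAT, hvA⟩ := lamp_exists hv h2
  have hG' := hC.free G m hG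
  have htf : TF (Monoid.Coprod G (FreeGroup (Fin m))) := hC.tf _ hG'
  refine ⟨4 + 8 * Fintype.card ι - 4 * α, ?_, ?_⟩
  · have h3 : vdim (kerA A) ≤ Fintype.card ι := vdim_le_card _
    rw [hvA] at h3
    nlinarith
  · intro r hr0 hr1
    have h3 : 0 < 1 - α := by linarith
    have h4 : (1 - α) ^ 2 ≠ 0 := by positivity
    have h5 := greedy h1 h2 (t := r / (1 - α) ^ 2) (by positivity) (by
      rw [div_le_div_iff₀ (by positivity) h3]
      nlinarith)
    set S : Set ℕ := {n | 1 ≤ rem α (r / (1 - α) ^ 2) n} with hS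
    obtain ⟨w, hw, hval⟩ := rvalue hR htf A T hA hT hAT (by rw [hvA]; exact h2) S
    have h6 : HasSum (fun n : ℕ => if n ∈ S then (1 - vdim (kerA A)) ^ 2 * vdim (kerA A) ^ n
        else 0) r := by
      have h7 := h5.mul_left ((1 - α) ^ 2)
      have e1 : (1 - α) ^ 2 * (r / (1 - α) ^ 2) = r := by field_simp
      rw [e1] at h7
      have e3 : (fun n : ℕ => if n ∈ S then (1 - α) ^ 2 * α ^ n else 0)
          = fun n : ℕ => (1 - α) ^ 2 * (if 1 ≤ rem α (r / (1 - α) ^ 2) n then α ^ n else 0) := by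
        funext n
        by_cases hn : 1 ≤ rem α (r / (1 - α) ^ 2) n
        · rw [if_pos hn, if_pos (show n ∈ S from hn)]
        · rw [if_neg hn, if_neg (show n ∉ S from hn), mul_zero]
      rw [hvA, e3]
      exact h7
    rw [hw.unique h6, hvA] at hval
    exact ⟨_, inferInstance, hC.hg hG', hval⟩

/-- **All or nothing, for kernel dimensions of single elements.** -/
theorem EE.all (hC : Cls C) (hR : ∀ c ∈ R, conj c ∈ R) {v : ℝ} (h : EE C R v) (h0 : 0 < v)
    (h1 : v < 1) (r : ℝ) (hr0 : 0 < r) (hr1 : r < 1) : EE C R r := by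
  -- a value in `[1/2, 1)`
  obtain ⟨α, ha1, ha2, hα⟩ : ∃ α : ℝ, 1 / 2 ≤ α ∧ α < 1 ∧ VV C R α := by
    obtain ⟨n, hn⟩ := exists_pow_lt_of_lt_one (show (0 : ℝ) < 1 / 2 by norm_num)
      (show 1 - v < 1 by linarith)
    have h2 : (1 - v) ^ (n + 1) ≤ (1 - v) ^ n :=
      pow_le_pow_of_le_one (by linarith) (by linarith) (Nat.le_succ n)
    have h3 : 0 < (1 - v) ^ (n + 1) := pow_pos (by linarith) _
    refine ⟨1 - (1 - v) ^ (n + 1), by linarith, by linarith, ?_⟩
    obtain ⟨H, _, hH, a, ha, hav⟩ := h.pow hC hR h0 h1 n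
    rw [← hav]
    exact ⟨H, inferInstance, hH, val_of (em a) (fun _ _ g => ha g)⟩
  obtain ⟨s, hs, hint⟩ := RR.interval hC hR hα ha1 ha2
  set δ := 1 - α with hδ
  have hδ0 : 0 < δ := by linarith
  have hs0 : 0 < s := by linarith
  -- all large ranks
  have hlarge : ∀ t : ℝ, s * s / δ ≤ t → RR C R t := by
    intro t ht
    have ht0 : 0 < t := lt_of_lt_of_le (by positivity) ht
    set n := ⌈t / s⌉₊ with hn
    have hn0 : 0 < n := Nat.ceil_pos.2 (by positivity)
    have hn0' : (0 : ℝ) < n := by exact_mod_cast hn0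
    have h3 : t / s ≤ n := Nat.le_ceil _
    have h4 : (n : ℝ) < t / s + 1 := Nat.ceil_lt_add_one (by positivity)
    have h5 : t / n ≤ s := by
      rw [div_le_iff₀ hn0']
      rw [div_le_iff₀ hs0] at h3
      linarith
    have h6 : s - t / n ≤ δ := by
      have h7 : s - t / n = (s * n - t) / n := by field_simp
      rw [h7, div_le_iff₀ hn0']
      have h8 : s * n - t ≤ s := by
        have : s * n ≤ s * (t / s + 1) := mul_le_mul_of_nonneg_left h4.le hs0.le
        have e : s * (t / s + 1) = t + s := by field_simp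
        linarith
      have h9 : s ≤ δ * n := by
        have : s / δ ≤ t / s := by
          rw [div_le_div_iff₀ hδ0 hs0]
          rw [div_le_iff₀ hδ0] at ht
          linarith
        have h10 : s / δ ≤ n := this.trans h3
        rw [div_le_iff₀ hδ0] at h10
        linarith
      linarith
    have h9 := (hint (s - t / n) (by linarith) h6).nsmul n
    have e : (n : ℝ) * (s - (s - t / n)) = t := by
      field_simp
      ring
    rwa [e] at h9
  -- small ranks
  set M := s * s / δ with hM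
  have hM0 : 0 < M := by positivity
  have hρ0 : 0 < 1 - r := by linarith
  obtain ⟨n, hn⟩ := exists_pow_lt_of_lt_one (show 0 < (1 - r) / M by positivity)
    (show 1 - v < 1 by linarith)
  have hy0 : 0 < (1 - v) ^ (n + 1) := pow_pos (by linarith) _
  have hy1 : (1 - v) ^ (n + 1) ≤ (1 - v) ^ n :=
    pow_le_pow_of_le_one (by linarith) (by linarith) (Nat.le_succ n)
  have h2 : M ≤ (1 - r) / (1 - v) ^ (n + 1) := by
    rw [le_div_iff₀ hy0]
    have h3 : (1 - v) ^ (n + 1) < (1 - r) / M := lt_of_le_of_lt hy1 hn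
    rw [lt_div_iff₀ hM0] at h3
    linarith
  have h3 := (hlarge _ h2).tensor hC (h.pow hC hR h0 h1 n)
  have e : (1 - r) / (1 - v) ^ (n + 1) * (1 - (1 - (1 - v) ^ (n + 1))) = 1 - r := by
    field_simp
    ring
  rw [e] at h3
  have h4 := h3.ee hC hR hρ0 (by linarith)
  rwa [sub_sub_cancel] at h4

end Pool.Agent.Q5.AZ
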