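import Pool.Agent.Q5.AZ.R3
import Pool.Agent.TH57.AZ.Wedge

/-!
Change of convention; elements with coefficients `0, 1, -1`; restriction and inclusion of groups.
-/

set_option autoImplicit false
set_option linter.unusedSectionVars false

open scoped InnerProductSpace ENNReal ComplexConjugate
open Filter Topology

namespace Pool.Agent.Q5.AZ

open Pool.Agent.TH25.AD
open Pool.Agent.W656.VA
open Pool.Agent.H80R2
open Pool.Agent.H80R2.BC (L2 GMat vdim IsTr LInv Equi act kerA Coef Generic)
open Pool.Agent.H812R3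

variable {G G' H : Type} [Group G] [Group G'] [Group H] {R : Subring ℂ}

/-! ### change of convention -/

theorem cv_inj (G : Type) [Group G] : Function.Injective (fun p : Unit × G => p.2⁻¹) := by
  rintro ⟨⟨⟩, a⟩ ⟨⟨⟩, b⟩ h
  simpa using h

/-- inversion as an equivalence -/
def cvE (G : Type) [Group G] : Unit × G ≃ G where
  toFun p := p.2⁻¹
  invFun g := ((), g⁻¹)
  left_inv p := by simp
  right_inv g := by simp

/-- inversion -/
noncomputable def Cv (G : Type) [Group G] : L2 G →L[ℂ] L2 (Unit × G) :=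
  KP.pull (fun p : Unit × G => p.2⁻¹) (cv_inj G)

theorem Cv_apply (f : L2 G) (g : G) : Cv G f ((), g) = f g⁻¹ := rfl

theorem Cv_isometry : Isometry (Cv G) := by
  apply AddMonoidHomClass.isometry_of_norm
  intro f
  have h1 : ‖Cv G f‖ ^ 2 = ‖f‖ ^ 2 := by
    rw [KP.norm_sq_eq, KP.norm_sq_eq, ← (cvE G).tsum_eq]
    rfl
  have h2 := norm_nonneg (Cv G f)
  have h3 := norm_nonneg f
  nlinarith [sq_nonneg (‖Cv G f‖ - ‖f‖), (pow_left_inj₀ h2 h3 two_ne_zero).1 h1]

theorem Cv_surj (F : L2 (Unit × G)) : ∃ f : L2 G, Cv G f = F := by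
  refine ⟨KP.pull (fun g : G => ((), g⁻¹)) (by
    intro a b h
    simpa using h) F, ?_⟩
  ext ⟨⟨⟩, g⟩
  rw [Cv_apply]
  show F ((), g⁻¹⁻¹) = F ((), g)
  rw [inv_inv]

theorem Cv_mem (a : G →₀ ℂ) (f : L2 G) : Cv G f ∈ kerA (em a) ↔ f ∈ TH57.AZ.kern a := by
  rw [mem_kerA, TH57.AZ.mem_kern_iff]
  have h : ∀ (k : Unit) (g : G), act (em a) (Cv G f) k g = a.sum fun h c => c * f (h⁻¹ * g⁻¹) := by
    intro k g
    unfold act em
    simp only [Finset.univ_unique, Finset.sum_singleton]
    refine Finsupp.sum_congr fun h _ => ?_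
    show a h * f (g * h)⁻¹ = _
    rw [mul_inv_rev]
  constructor
  · intro h1 g
    have := h1 () g⁻¹
    rw [h, inv_inv] at this
    exact this
  · intro h1 k g
    rw [h]
    exact h1 g⁻¹

theorem Cv_image (a : G →₀ ℂ) :
    Cv G '' TH57.AZ.kern a = (kerA (em a) : Set (L2 (Unit × G))) := by
  ext F
  constructor
  · rintro ⟨f, hf, rfl⟩
    exact (Cv_mem a f).2 hf
  · intro hF
    obtain ⟨f, rfl⟩ := Cv_surj F
    exact ⟨f, (Cv_mem a f).1 hF, rfl⟩

theorem kd_eq (a : G →₀ ℂ) : TH57.AZ.kd a = vdim (kerA (em a)) := by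
  classical
  unfold TH57.AZ.kd vdim
  simp only [Finset.univ_unique, Finset.sum_singleton]
  rw [← Cv_image]
  have h : BC.dl G (default : Unit) = Cv G (lp.single 2 (1 : G) (1 : ℂ)) := by
    rw [dl_eq]
    ext ⟨⟨⟩, g⟩
    rw [Cv_apply]
    by_cases hg : g = 1
    · subst hg
      have h3 : (de (default, (1 : G)) : L2 (Unit × G)) (PUnit.unit, 1) = 1 := de_apply_self _
      rw [h3, inv_one, lp.single_apply_self]
    · have h1 : ¬ ((PUnit.unit, g) : Unit × G) = (default, 1) := by
        intro h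
        exact hg (congrArg Prod.snd h)
      have h2 : g⁻¹ ≠ 1 := by
        rw [Ne, inv_eq_one]
        exact hg
      rw [de_apply_ne h1, lp.single_apply_ne _ _ _ h2]
  have h2 := Metric.infDist_image (Cv_isometry (G := G)) (t := TH57.AZ.kern a)
    (x := lp.single 2 (1 : G) (1 : ℂ))
  rw [← h] at h2
  rw [← h2]

/-! ### nonzero elements -/

theorem em_lt_one {a : G →₀ ℂ} (ha : a ≠ 0) : vdim (kerA (em a)) < 1 := by
  by_contra hcon
  push Not at hcon
  have h1 : kerA (em a) = ⊤ := by
    apply eq_of_vdim (isClosed_kerA _) (linv_kerA _) isClosed_univ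
    · exact linv_of fun _ _ _ => trivial
    · exact le_top
    · rw [vdim_top]
      simpa using hcon
  apply ha
  ext g
  have h2 : (de ((), (1 : G)) : L2 (Unit × G)) ∈ kerA (em a) := by
    rw [h1]
    trivial
  rw [mem_kerA] at h2
  have h3 := h2 () g⁻¹
  unfold act em at h3
  simp only [Finset.univ_unique, Finset.sum_singleton] at h3
  rw [Finsupp.sum, Finset.sum_eq_single g] at h3
  · have h4 : (de ((), (1 : G)) : L2 (Unit × G)) (default, g⁻¹ * g) = 1 := by
      rw [inv_mul_cancel]
      exact de_apply_self _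
    rw [h4, mul_one] at h3
    exact h3
  · intro h _ hh
    have h4 : (de ((), (1 : G)) : L2 (Unit × G)) (default, g⁻¹ * h) = 0 := by
      apply de_apply_ne
      intro h5
      have h6 : g⁻¹ * h = 1 := congrArg Prod.snd h5
      exact hh (inv_mul_eq_one.1 h6).symm
    rw [h4, mul_zero]
  · intro h
    rw [Finsupp.notMem_support_iff.1 h, zero_mul]

/-- an element with a kernel gives one with integral coefficients in a power of the group -/
theorem exists_integral (a : G →₀ ℂ) (ha : a ≠ 0) (hk : 0 < TH57.AZ.kd a) :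
    ∃ (n : ℕ) (v : ℝ), 0 < v ∧ v < 1 ∧ EVal (⊥ : Subring ℂ) (Fin n → G) v := by
  classical
  set n := a.support.card with hn
  set e : Fin n ≃ a.support := a.support.equivFin.symm with he
  set g : Fin n → G := fun i => (e i : G) with hg
  have hinj : Function.Injective g := fun i j h => e.injective (Subtype.ext h)
  have h1 : TH57.AZ.kd a ^ n ≤ TH57.AZ.kd (TH57.AZ.wd g) := by
    apply TH57.AZ.kd_wedge a g hinj _ ha
    intro x
    constructor
    · intro hx
      exact ⟨e.symm ⟨x, hx⟩, by rw [hg]; simp⟩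
    · rintro ⟨i, rfl⟩
      exact (e i).2
  refine ⟨n, TH57.AZ.kd (TH57.AZ.wd g), lt_of_lt_of_le (pow_pos hk n) h1, ?_, TH57.AZ.wd g, ?_, ?_⟩
  · rw [kd_eq]
    exact em_lt_one (TH57.AZ.wd_ne_zero hinj)
  · intro x
    rcases TH57.AZ.wd_values hinj x with h | h | h <;> rw [h]
    · exact Subring.zero_mem _
    · exact Subring.one_mem _
    · exact Subring.neg_mem _ (Subring.one_mem _)
  · exact (kd_eq _).symm

/-! ### change of the group -/

theorem eval_incl {v : ℝ} (f : G →* G') (hf : Function.Injective f) (hv : EVal R G v) :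
    EVal R G' v := by
  obtain ⟨a, ha, rfl⟩ := hv
  refine ⟨a.mapDomain f, coef_mapDomain _ _ ha, ?_⟩
  have : em (a.mapDomain f) = BC.push f (em a) := by
    funext i j
    rfl
  rw [this, vdim_push f hf]

theorem eval_fg {v : ℝ} (hv : EVal R H v) : ∃ K : Subgroup H, Group.FG K ∧ EVal R K v := by
  classical
  obtain ⟨a, ha, rfl⟩ := hv
  set K := Subgroup.closure (a.support : Set H) with hK
  have hsub : ∀ x, x ∈ a.support → x ∈ K := fun x hx => Subgroup.subset_closure hx
  set b : K →₀ ℂ := a.comapDomain (Subtype.val : K → H) Subtype.val_injective.injOn with hb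
  have hp : b.mapDomain (Subtype.val : K → H) = a := by
    apply Finsupp.mapDomain_comapDomain _ Subtype.val_injective
    intro x hx
    exact ⟨⟨x, hsub x hx⟩, rfl⟩
  refine ⟨K, Group.closure_finset_fg a.support, b, fun h => ha h, ?_⟩
  rw [← vdim_push K.subtype K.subtype_injective]
  congr 1
  have : BC.push (K.subtype : K → H) (em b) = em a := by
    funext i j
    exact hp
  rw [this]

theorem eval_mono {R' : Subring ℂ} (h : R ≤ R') {v : ℝ} (hv : EVal R G v) : EVal R' G v := by
  obtain ⟨a, ha, hv⟩ := hv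
  exact ⟨a, fun g => h (ha g), hv⟩

end Pool.Agent.Q5.AZ
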