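import Pool.Agent.Q5.AZ.R4

/-!
Embedding countable groups in two-generator subgroups of iterated wreath products (Neumann and
Neumann).
-/

set_option autoImplicit false
set_option linter.unusedSectionVars false

namespace Pool.Agent.Q5.AZ

open Pool.Agent.TH25.AD

section wr

variable {L : Type} [Group L]

theorem wmul_k {a b : Wr L} (ha : a.n = 0) (i : ℤ) : (a * b).k i = a.k i * b.k i := by
  rw [Wr.mul_k, ha, sub_zero]

theorem winv_k {a : Wr L} (ha : a.n = 0) (i : ℤ) : (a⁻¹).k i = (a.k i)⁻¹ := by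
  rw [Wr.inv_k, ha, add_zero]

/-- the inclusion at the coordinate `0` -/
def i0 (L : Type) [Group L] : L →* Wr L where
  toFun x := ⟨fun i => if i = 0 then x else 1, 0⟩
  map_one' := by
    apply Wr.ext
    · funext i
      rw [Wr.one_k]
      simp
    · rfl
  map_mul' := by
    intro x y
    apply Wr.ext
    · funext i
      rw [wmul_k rfl]
      by_cases h : i = 0
      · simp [h]
      · simp [h]
    · rfl

theorem i0_k (x : L) (i : ℤ) : (i0 L x).k i = if i = 0 then x else 1 := rfl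

theorem i0_inj : Function.Injective (i0 L) := by
  intro x y h
  have := congrArg (fun a : Wr L => a.k 0) h
  simpa [i0_k] using this

/-- the commutator of the step with value `x` and the shift is `x` at the coordinate `0` -/
theorem step_comm (x : L) :
    (⟨fun j => if 0 ≤ j then x else 1, 0⟩ : Wr L) * Wr.t *
      (⟨fun j => if 0 ≤ j then x else 1, 0⟩ : Wr L)⁻¹ * (Wr.t : Wr L)⁻¹ = i0 L x := by
  set a : Wr L := ⟨fun j => if 0 ≤ j then x else 1, 0⟩ with ha
  have h1 : a * Wr.t * a⁻¹ * (Wr.t : Wr L)⁻¹ =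
      a * ((Wr.t : Wr L) ^ (1 : ℤ) * a⁻¹ * ((Wr.t : Wr L) ^ (1 : ℤ))⁻¹) := by
    rw [zpow_one]
    group
  have ha0 : a.n = 0 := rfl
  rw [h1]
  apply Wr.ext
  · funext i
    rw [wmul_k ha0, Wr.conj_k, winv_k ha0, i0_k]
    show (if 0 ≤ i then x else 1) * (if 0 ≤ i - 1 then x else 1)⁻¹ = _
    by_cases h2 : i = 0
    · subst h2
      simp
    · by_cases h3 : 0 ≤ i
      · have h4 : 0 ≤ i - 1 := by omega
        simp only [if_pos h3, if_pos h4, if_neg h2, mul_inv_cancel]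
      · have h4 : ¬ 0 ≤ i - 1 := by omega
        simp only [if_neg h3, if_neg h4, if_neg h2, inv_one, mul_one]
  · rw [Wr.mul_n, Wr.conj_n, Wr.inv_n]
    rfl

/-- the second generator -/
def gc (g : ℕ → L) : Wr (Wr L) :=
  ⟨fun j => if j = 0 then Wr.t else if 0 < j ∧ j % 2 = 1 then
    ⟨fun m => if 0 ≤ m then g (j / 2).toNat else 1, 0⟩ else 1, 0⟩

theorem gc_comm (g : ℕ → L) (l : ℕ) :
    ((Wr.t : Wr (Wr L)) ^ (-(2 * (l : ℤ) + 1)) * gc g * ((Wr.t : Wr (Wr L)) ^ (-(2 * (l : ℤ) + 1)))⁻¹) *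
      gc g *
      ((Wr.t : Wr (Wr L)) ^ (-(2 * (l : ℤ) + 1)) * gc g *
        ((Wr.t : Wr (Wr L)) ^ (-(2 * (l : ℤ) + 1)))⁻¹)⁻¹ * (gc g)⁻¹ =
      i0 (Wr L) (i0 L (g l)) := by
  set m : ℤ := 2 * (l : ℤ) + 1 with hm
  set b := (Wr.t : Wr (Wr L)) ^ (-m) * gc g * ((Wr.t : Wr (Wr L)) ^ (-m))⁻¹ with hb
  have hc0 : (gc g).n = 0 := rfl
  have hb0 : b.n = 0 := by rw [hb, Wr.conj_n, hc0]
  have hbk : ∀ j, b.k j = (gc g).k (j + m) := by
    intro j
    rw [hb, Wr.conj_k, sub_neg_eq_add]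
  have hbc : (b * gc g).n = 0 := by rw [Wr.mul_n, hb0, hc0]; rfl
  have hbcb : (b * gc g * b⁻¹).n = 0 := by rw [Wr.mul_n, hbc, Wr.inv_n, hb0]; rfl
  apply Wr.ext
  · funext j
    rw [wmul_k hbcb, wmul_k hbc, wmul_k hb0, winv_k hb0, winv_k hc0, hbk, i0_k]
    have hk : ∀ i : ℤ, (gc g).k i = if i = 0 then Wr.t else if 0 < i ∧ i % 2 = 1 then
        ⟨fun m => if 0 ≤ m then g (i / 2).toNat else 1, 0⟩ else 1 := fun i => rfl
    by_cases hj : j = 0
    · subst hj
      rw [if_pos rfl, zero_add]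
      have h1 : (gc g).k 0 = Wr.t := rfl
      have h2 : (gc g).k m = ⟨fun i => if 0 ≤ i then g l else 1, 0⟩ := by
        rw [hk, if_neg (by omega), if_pos (by omega)]
        have : (m / 2).toNat = l := by omega
        rw [this]
      rw [h1, h2]
      exact step_comm (g l)
    · rw [if_neg hj]
      by_cases hj1 : 0 < j ∧ j % 2 = 1
      · have h2 : (gc g).k (j + m) = 1 := by
          rw [hk, if_neg (by omega), if_neg (by omega)]
        rw [h2]
        simp
      · have h2 : (gc g).k j = 1 := by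
          rw [hk, if_neg hj, if_neg hj1]
        rw [h2]
        simp
  · rw [Wr.mul_n, hbcb, Wr.inv_n, hc0]
    rfl

/-- the group has two generators -/
def TwoGen (G : Type) [Group G] : Prop := ∃ a b : G, Subgroup.closure {a, b} = ⊤

/-- **Embedding in a two-generator group.** -/
theorem two_gen_embedding (g : ℕ → L) (hg : Subgroup.closure (Set.range g) = ⊤) :
    ∃ (K : Subgroup (Wr (Wr L))) (f : L →* K), TwoGen K ∧ Function.Injective f := by
  set K := Subgroup.closure {(Wr.t : Wr (Wr L)), gc g} with hK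
  have ht : (Wr.t : Wr (Wr L)) ∈ K := Subgroup.subset_closure (by simp)
  have hc : gc g ∈ K := Subgroup.subset_closure (by simp)
  set φ : L →* Wr (Wr L) := (i0 (Wr L)).comp (i0 L) with hφ
  have h1 : ∀ l, φ (g l) ∈ K := by
    intro l
    have h2 : φ (g l) = i0 (Wr L) (i0 L (g l)) := rfl
    rw [h2, ← gc_comm g l]
    have h3 : (Wr.t : Wr (Wr L)) ^ (-(2 * (l : ℤ) + 1)) ∈ K := K.zpow_mem ht _
    exact K.mul_mem (K.mul_mem (K.mul_mem (K.mul_mem (K.mul_mem h3 hc) (K.inv_mem h3)) hc)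
      (K.inv_mem (K.mul_mem (K.mul_mem h3 hc) (K.inv_mem h3)))) (K.inv_mem hc)
  have h2 : ∀ x, φ x ∈ K := by
    intro x
    have h3 : (⊤ : Subgroup L) ≤ K.comap φ := by
      rw [← hg, Subgroup.closure_le]
      rintro _ ⟨l, rfl⟩
      exact h1 l
    exact h3 (Subgroup.mem_top x)
  refine ⟨K, φ.codRestrict K h2, ?_, ?_⟩
  · refine ⟨⟨Wr.t, ht⟩, ⟨gc g, hc⟩, ?_⟩
    rw [eq_top_iff]
    rintro ⟨x, hx⟩ _
    have h4 : x ∈ (Subgroup.closure {(⟨Wr.t, ht⟩ : K), ⟨gc g, hc⟩}).map K.subtype := by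
      rw [MonoidHom.map_closure, Set.image_pair]
      exact hx
    obtain ⟨y, hy, hyx⟩ := h4
    have : y = ⟨x, hx⟩ := Subtype.ext hyx
    rwa [← this]
  · intro x y h
    apply i0_inj
    apply i0_inj
    exact congrArg Subtype.val h

theorem two_gen_of_fg (hL : Group.FG L) :
    ∃ (K : Subgroup (Wr (Wr L))) (f : L →* K), TwoGen K ∧ Function.Injective f := by
  classical
  obtain ⟨S, hS⟩ := Group.fg_def.1 hL
  apply two_gen_embedding (fun i => S.toList.getD i 1)
  rw [eq_top_iff, ← hS, Subgroup.closure_le]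
  intro x hx
  apply Subgroup.subset_closure
  have h1 : x ∈ S.toList := Finset.mem_toList.2 hx
  obtain ⟨i, hi, rfl⟩ := List.getElem_of_mem h1
  exact ⟨i, List.getD_eq_getElem _ _ hi⟩

end wr

end Pool.Agent.Q5.AZ
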