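import Pool.Agent.Q5.AZ.R5

/-!
Gaps: classes which are closed under direct products and free products with free groups.
-/

set_option autoImplicit false
set_option linter.unusedSectionVars false

open scoped ComplexConjugate

namespace Pool.Agent.Q5.AZ

open Pool.Agent.TH25.AD
open Pool.Agent.W656.VA

variable {C : (G : Type) → [Group G] → Prop} {R : Subring ℂ}

theorem RR.tensor' (hprod : ∀ (G H : Type) [Group G] [Group H], C G → C H → C (G × H))
    {ρ v : ℝ} (h : RR C R ρ) (h' : EE C R v) : RR C R (ρ * (1 - v)) := by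
  obtain ⟨H, _, hH, h⟩ := h
  obtain ⟨H', _, hH', h'⟩ := h'
  exact ⟨H × H', inferInstance, hprod H H' hH hH', rval_tensor h h'⟩

theorem RR.ee' (hfree : ∀ (G : Type) [Group G] (m : ℕ), C G → C (Monoid.Coprod G (FreeGroup (Fin m))))
    (hR : ∀ c ∈ R, conj c ∈ R) {ρ : ℝ} (h : RR C R ρ) (h0 : 0 < ρ)
    (h1 : ρ < 1) : EE C R (1 - ρ) := by
  obtain ⟨H, _, hH, h⟩ := h
  obtain ⟨m, h2⟩ := compress hR h h0 h1
  exact ⟨_, inferInstance, hfree H m hH, h2⟩

theorem RR.pow' (hprod : ∀ (G H : Type) [Group G] [Group H], C G → C H → C (G × H))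
    {v : ℝ} (h : EE C R v) (n : ℕ) : RR C R ((1 - v) ^ (n + 1)) := by
  induction n with
  | zero => simpa using h.rr
  | succ n ih =>
    have h2 := ih.tensor' hprod h
    rwa [← pow_succ] at h2

/-- **The kernel dimensions are dense.** -/
theorem EE.dense (hprod : ∀ (G H : Type) [Group G] [Group H], C G → C H → C (G × H))
    (hfree : ∀ (G : Type) [Group G] (m : ℕ), C G → C (Monoid.Coprod G (FreeGroup (Fin m))))
    (hR : ∀ c ∈ R, conj c ∈ R) {v : ℝ} (h : EE C R v) (h0 : 0 < v) (h1 : v < 1)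
    (a b : ℝ) (ha : 0 ≤ a) (hab : a < b) (hb : b ≤ 1) : ∃ r : ℝ, a < r ∧ r < b ∧ EE C R r := by
  obtain ⟨n, hn⟩ := exists_pow_lt_of_lt_one (show (0 : ℝ) < b - a by linarith)
    (show 1 - v < 1 by linarith)
  have h2 : (1 - v) ^ (n + 1) ≤ (1 - v) ^ n :=
    pow_le_pow_of_le_one (by linarith) (by linarith) (Nat.le_succ n)
  have h3 : 0 < (1 - v) ^ (n + 1) := pow_pos (by linarith) _
  set y := (1 - v) ^ (n + 1) with hy
  have h4 : y < b - a := by linarith
  -- a multiple of `y` in `(1 - b, 1 - a)`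
  set k := ⌊(1 - b) / y⌋₊ + 1 with hk
  have h5 : (1 - b) / y < k := by
    rw [hk]
    push_cast
    exact Nat.lt_floor_add_one _
  have h6 : (k : ℝ) ≤ (1 - b) / y + 1 := by
    rw [hk]
    push_cast
    have := Nat.floor_le (show 0 ≤ (1 - b) / y from div_nonneg (by linarith) h3.le)
    linarith
  rw [div_lt_iff₀ h3] at h5
  have h7 : (k : ℝ) * y ≤ 1 - b + y := by
    have := mul_le_mul_of_nonneg_right h6 h3.le
    have e : ((1 - b) / y + 1) * y = 1 - b + y := by field_simp
    linarith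
  have h8 := ((RR.pow' hprod h n).nsmul k).ee' hfree hR (by
    rw [← hy]
    have : 0 < k := Nat.succ_pos _
    positivity) (by rw [← hy]; linarith)
  rw [← hy] at h8
  exact ⟨_, by linarith, by linarith, h8⟩

end Pool.Agent.Q5.AZ
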